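import Mathlib

/-!
Abstract switching lemma (for product distributions over blocks), by induction, no encodings.
-/

set_option autoImplicit false

open Finset Function

namespace Pool.Agent.AH

open Classical in
/-- weighted measure of an event on `I → Ω` -/
noncomputable def Pr {I Ω : Type} [Fintype I] [DecidableEq I] [Fintype Ω] (w : Ω → ℝ) (E : (I → Ω) → Prop) : ℝ :=
  ∑ ρ : I → Ω, if E ρ then ∏ i, w (ρ i) else 0

section basic

variable {I Ω : Type} [Fintype I] [DecidableEq I] [Fintype Ω] {w : Ω → ℝ}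

theorem Pr_nonneg (hw : ∀ o, 0 ≤ w o) (E : (I → Ω) → Prop) : 0 ≤ Pr w E := by
  classical
  unfold Pr
  refine Finset.sum_nonneg fun ρ _ => ?_
  split_ifs
  · exact Finset.prod_nonneg fun i _ => hw _
  · exact le_rfl

theorem Pr_mono (hw : ∀ o, 0 ≤ w o) {E E' : (I → Ω) → Prop} (h : ∀ ρ, E ρ → E' ρ) :
    Pr w E ≤ Pr w E' := by
  classical
  unfold Pr
  refine Finset.sum_le_sum fun ρ _ => ?_
  by_cases h1 : E ρ
  · simp [h1, h ρ h1]
  · simp only [h1, if_false]
    split_ifs
    · exact Finset.prod_nonneg fun i _ => hw _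
    · exact le_rfl

theorem Pr_or (hw : ∀ o, 0 ≤ w o) (E E' : (I → Ω) → Prop) :
    Pr w (fun ρ => E ρ ∨ E' ρ) ≤ Pr w E + Pr w E' := by
  classical
  unfold Pr
  rw [← Finset.sum_add_distrib]
  refine Finset.sum_le_sum fun ρ _ => ?_
  have h0 : 0 ≤ ∏ i, w (ρ i) := Finset.prod_nonneg fun i _ => hw _
  by_cases h1 : E ρ <;> by_cases h2 : E' ρ <;> simp [h1, h2, h0]

theorem Pr_split (E P : (I → Ω) → Prop) :
    Pr w E = Pr w (fun ρ => E ρ ∧ P ρ) + Pr w (fun ρ => E ρ ∧ ¬ P ρ) := by
  classical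
  unfold Pr
  rw [← Finset.sum_add_distrib]
  refine Finset.sum_congr rfl fun ρ _ => ?_
  by_cases h1 : E ρ <;> by_cases h2 : P ρ <;> simp [h1, h2]

theorem Pr_false (E : (I → Ω) → Prop) (h : ∀ ρ, ¬ E ρ) : Pr w E = 0 := by
  classical
  unfold Pr
  refine Finset.sum_eq_zero fun ρ _ => ?_
  simp [h ρ]

theorem Pr_true (hs : ∑ o, w o = 1) : Pr w (fun _ : I → Ω => True) = 1 := by
  classical
  unfold Pr
  simp only [if_true]
  have := Finset.prod_univ_sum (fun _ : I => (Finset.univ : Finset Ω)) (fun _ o => w o)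
  simp only [Fintype.piFinset_univ] at this
  rw [← this, hs]
  simp

theorem Pr_finite_union (hw : ∀ o, 0 ≤ w o) {J : Type} (s : Finset J)
    (E : J → (I → Ω) → Prop) :
    Pr w (fun ρ => ∃ j ∈ s, E j ρ) ≤ ∑ j ∈ s, Pr w (E j) := by
  classical
  induction s using Finset.induction_on with
  | empty => simp [Pr_false]
  | insert a s ha ih =>
    rw [Finset.sum_insert ha]
    calc Pr w (fun ρ => ∃ j ∈ insert a s, E j ρ)
        ≤ Pr w (fun ρ => E a ρ ∨ ∃ j ∈ s, E j ρ) := by
          refine Pr_mono hw fun ρ h => ?_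
          obtain ⟨j, hj, hE⟩ := h
          rcases Finset.mem_insert.1 hj with rfl | hj
          · exact Or.inl hE
          · exact Or.inr ⟨j, hj, hE⟩
      _ ≤ Pr w (E a) + Pr w (fun ρ => ∃ j ∈ s, E j ρ) := Pr_or hw _ _
      _ ≤ _ := by linarith

/-- resampling one block -/
theorem Pr_resample (hs : ∑ o, w o = 1) (E : (I → Ω) → Prop) (i : I) :
    Pr w E = ∑ o, w o * Pr w (fun ρ => E (update ρ i o)) := by
  classical
  unfold Pr
  have key : ∀ (g : (I → Ω) → ℝ), ∑ ρ : I → Ω, g ρ
      = ∑ p : Ω × ({j // j ≠ i} → Ω), g ((Equiv.funSplitAt i Ω).symm p) := by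
    intro g
    exact (Equiv.sum_comp (Equiv.funSplitAt i Ω).symm g).symm
  have hprod : ∀ p : Ω × ({j // j ≠ i} → Ω),
      ∏ j, w ((Equiv.funSplitAt i Ω).symm p j) = w p.1 * ∏ j, w (p.2 j) := by
    intro p
    rw [Fintype.prod_eq_mul_prod_subtype_ne _ i]
    congr 1
    · simp [Equiv.funSplitAt, Equiv.piSplitAt]
    · refine Finset.prod_congr rfl fun j _ => ?_
      have : (j : I) ≠ i := j.2
      simp [Equiv.funSplitAt, Equiv.piSplitAt, this]
  have hupd : ∀ (p : Ω × ({j // j ≠ i} → Ω)) (o : Ω),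
      update ((Equiv.funSplitAt i Ω).symm p) i o = (Equiv.funSplitAt i Ω).symm (o, p.2) := by
    intro p o
    ext j
    by_cases hj : j = i
    · subst hj; simp [Equiv.funSplitAt, Equiv.piSplitAt]
    · simp [Equiv.funSplitAt, Equiv.piSplitAt, hj]
  have hR : ∀ o, ∑ ρ : I → Ω, (if E (update ρ i o) then ∏ i, w (ρ i) else 0)
      = ∑ q : ({j // j ≠ i} → Ω),
        if E ((Equiv.funSplitAt i Ω).symm (o, q)) then ∏ j, w (q j) else 0 := by
    intro o
    rw [key, Fintype.sum_prod_type]
    simp only [hupd, hprod]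
    rw [Finset.sum_comm]
    refine Finset.sum_congr rfl fun q _ => ?_
    by_cases h : E ((Equiv.funSplitAt i Ω).symm (o, q))
    · simp only [h, if_true]
      rw [← Finset.sum_mul, hs, one_mul]
    · simp [h]
  have e1 := key (fun ρ => if E ρ then ∏ i, w (ρ i) else 0)
  rw [Fintype.sum_prod_type] at e1
  refine e1.trans ?_
  refine Finset.sum_congr rfl fun o _ => ?_
  show _ = w o * ∑ ρ : I → Ω, (if E (update ρ i o) then ∏ i, w (ρ i) else 0)
  rw [hR, Finset.mul_sum]
  refine Finset.sum_congr rfl fun q _ => ?_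
  rw [hprod]
  split_ifs <;> simp

end basic

/-- The data of the abstract switching lemma. -/
structure SwData (I Ω 𝒯 : Type) [Fintype I] [DecidableEq I] [Fintype Ω] where
  w : Ω → ℝ
  live : Ω → Prop
  ans : Ω → Bool → Ω
  R : Ω → Ω → Prop
  un : 𝒯 → I → Ω → Prop
  st : 𝒯 → I → Ω → Prop
  bl : 𝒯 → List I
  φ : 𝒯 → I → Ω → Ω
  c : ℝ
  W : ℕ
  L : List 𝒯
  bad : ℕ → (I → Ω) → Prop
  w_nonneg : ∀ o, 0 ≤ w o
  w_sum : ∑ o, w o = 1
  c_nonneg : 0 ≤ c
  bl_nodup : ∀ T ∈ L, (bl T).Nodup
  bl_len : ∀ T ∈ L, (bl T).length ≤ W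
  un_out : ∀ T ∈ L, ∀ i, i ∉ bl T → ∀ o, un T i o
  st_out : ∀ T ∈ L, ∀ i, i ∉ bl T → ∀ o, ¬ st T i o
  st_live : ∀ T ∈ L, ∀ i o, st T i o → live o
  ans_dead : ∀ o a, ¬ live (ans o a)
  R_un : ∀ T ∈ L, ∀ i o o', un T i o → ¬ st T i o → R o o' → un T i o' ∧ ¬ st T i o'
  R_nun : ∀ T ∈ L, ∀ i o o', ¬ un T i o → R o o' → ¬ un T i o'
  R_φ : ∀ T ∈ L, ∀ i o, un T i o → st T i o → R o (φ T i o)
  w_φ : ∀ T ∈ L, ∀ i, ∀ h : Ω → ℝ, (∀ o, 0 ≤ h o) →
    (∑ o, open Classical in (if un T i o ∧ st T i o then w o * h (φ T i o) else 0))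
      ≤ c * ∑ o, open Classical in (if un T i o then w o * h o else 0)
  bad_succ : ∀ u σ i, bad (u + 1) σ → live (σ i) → ∃ a, bad u (update σ i (ans (σ i) a))
  bad_fals : ∀ u σ, (∀ T ∈ L, ∃ i, ¬ un T i (σ i)) → ¬ bad (u + 1) σ
  bad_sat : ∀ u σ, (∃ T ∈ L, ∀ i, un T i (σ i) ∧ ¬ st T i (σ i)) → ¬ bad (u + 1) σ

namespace SwData

variable {I Ω 𝒯 : Type} [Fintype I] [DecidableEq I] [Fintype Ω] (D : SwData I Ω 𝒯)

/-- effective restriction -/
def eff (τ : I → Option Ω) (ρ : I → Ω) : I → Ω := fun i => (τ i).getD (ρ i)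

/-- `E` is closed under refinements of the free blocks -/
def Closed (τ : I → Option Ω) (E : (I → Ω) → Prop) : Prop :=
  ∀ ρ i o, τ i = none → D.R (ρ i) o → E ρ → E (update ρ i o)

/-- all fixed blocks are dead -/
def DeadFix (τ : I → Option Ω) : Prop := ∀ i o, τ i = some o → ¬ D.live o

/-- the run through the blocks of a term with worst case answers -/
def G (T : 𝒯) : List I → ℕ → (I → Ω) → Prop
  | [], u, σ => D.bad u σ
  | (i :: l), u, σ =>
    (D.st T i (σ i) ∧ (u = 0 ∨ ∃ v, u = v + 1 ∧ ∃ a, G T l v (update σ i (D.ans (σ i) a)))) ∨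
      (¬ D.st T i (σ i) ∧ G T l u σ)

theorem bad_G (T : 𝒯) (hT : T ∈ D.L) (l : List I) : ∀ (u : ℕ) (σ : I → Ω), D.bad u σ →
    D.G T l u σ := by
  induction l with
  | nil => intro u σ h; exact h
  | cons i l ih =>
    intro u σ h
    by_cases hst : D.st T i (σ i)
    · left
      refine ⟨hst, ?_⟩
      cases u with
      | zero => exact Or.inl rfl
      | succ v =>
        right
        obtain ⟨a, ha⟩ := D.bad_succ v σ i h (D.st_live T hT i _ hst)
        exact ⟨v, rfl, a, ih _ _ ha⟩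
    · right
      exact ⟨hst, ih _ _ h⟩

/-- the three statements -/
def SA (C : ℝ) (u : ℕ) : Prop :=
  ∀ (τ : I → Option Ω) (E : (I → Ω) → Prop), D.DeadFix τ → D.Closed τ E →
    Pr D.w (fun ρ => E ρ ∧ D.bad u (eff τ ρ)) ≤ C ^ u * Pr D.w E

def SB1 (C δ : ℝ) (u : ℕ) : Prop :=
  ∀ T ∈ D.L, ∀ (l : List I) (τ : I → Option Ω) (E : (I → Ω) → Prop), l.Nodup →
    (∀ i ∈ l, τ i = none) → D.DeadFix τ → D.Closed τ E →
    Pr D.w (fun ρ => E ρ ∧ (∀ i ∈ l, D.un T i (ρ i)) ∧ D.G T l u (eff τ ρ))
      ≤ (1 + δ) ^ l.length * C ^ u * Pr D.w (fun ρ => E ρ ∧ ∀ i ∈ l, D.un T i (ρ i))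

def SB2 (C δ : ℝ) (u : ℕ) : Prop :=
  ∀ T ∈ D.L, ∀ (l : List I) (τ : I → Option Ω) (E : (I → Ω) → Prop), l.Nodup →
    (∀ i ∈ l, τ i = none) → D.DeadFix τ → D.Closed τ E →
    Pr D.w (fun ρ => E ρ ∧ (∀ i ∈ l, D.un T i (ρ i)) ∧ (∃ i ∈ l, D.st T i (ρ i)) ∧
        D.G T l u (eff τ ρ))
      ≤ ((1 + δ) ^ l.length - 1) * C ^ u * Pr D.w (fun ρ => E ρ ∧ ∀ i ∈ l, D.un T i (ρ i))

omit [Fintype I] [DecidableEq I] [Fintype Ω] in
theorem eff_free {τ : I → Option Ω} {ρ : I → Ω} {i : I} (h : τ i = none) : eff τ ρ i = ρ i := by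
  simp [eff, h]

omit [Fintype I] [Fintype Ω] in
theorem eff_update {τ : I → Option Ω} {ρ : I → Ω} {i : I} (o o' : Ω) :
    update (eff τ (update ρ i o)) i o' = eff (update τ i (some o')) ρ := by
  ext j
  by_cases hj : j = i
  · subst hj; simp [eff]
  · simp [eff, hj]

theorem Closed.and_local {τ : I → Option Ω} {E : (I → Ω) → Prop} (hE : D.Closed τ E)
    (T : 𝒯) (hT : T ∈ D.L) (i : I) :
    D.Closed τ (fun ρ => E ρ ∧ D.un T i (ρ i) ∧ ¬ D.st T i (ρ i)) := by
  intro ρ j o hj hR h
  refine ⟨hE ρ j o hj hR h.1, ?_⟩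
  by_cases hij : i = j
  · subst hij
    simpa using D.R_un T hT i _ _ h.2.1 h.2.2 hR
  · simpa [update_of_ne hij] using h.2

/-- the transfer step at a starred block -/
theorem step (C δ : ℝ) (hδ : 0 ≤ δ) (hC : 0 ≤ C) (hcC : 2 * D.c ≤ δ * C) (v : ℕ)
    (hB1 : D.SB1 C δ v) (T : 𝒯) (hT : T ∈ D.L) (i : I) (l : List I) (τ : I → Option Ω)
    (E : (I → Ω) → Prop) (hnd : (i :: l).Nodup) (hfree : ∀ j ∈ i :: l, τ j = none)
    (hdead : D.DeadFix τ) (hE : D.Closed τ E) :
    Pr D.w (fun ρ => E ρ ∧ (∀ j ∈ i :: l, D.un T j (ρ j)) ∧ D.st T i (ρ i) ∧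
      ∃ a, D.G T l v (update (eff τ ρ) i (D.ans (eff τ ρ i) a)))
      ≤ δ * (1 + δ) ^ l.length * C ^ (v + 1) *
        Pr D.w (fun ρ => E ρ ∧ ∀ j ∈ i :: l, D.un T j (ρ j)) := by
  classical
  have hil : i ∉ l := (List.nodup_cons.1 hnd).1
  have hln : l.Nodup := (List.nodup_cons.1 hnd).2
  have hτi : τ i = none := hfree i (by simp)
  have hfl : ∀ j ∈ l, τ j = none := fun j hj => hfree j (by simp [hj])
  have hw := D.w_nonneg
  -- the function h
  set h : Ω → ℝ := fun o => Pr D.w (fun ρ => E (update ρ i o) ∧ ∀ j ∈ l, D.un T j (ρ j)) with hh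
  have hh0 : ∀ o, 0 ≤ h o := fun o => Pr_nonneg hw _
  have hunl : ∀ (ρ : I → Ω) (o : Ω), (∀ j ∈ l, D.un T j (update ρ i o j)) ↔
      ∀ j ∈ l, D.un T j (ρ j) := by
    intro ρ o
    refine forall₂_congr fun j hj => ?_
    have : j ≠ i := fun h => hil (h ▸ hj)
    simp [update_of_ne this]
  -- right hand side
  have hR : Pr D.w (fun ρ => E ρ ∧ ∀ j ∈ i :: l, D.un T j (ρ j))
      = ∑ o, (if D.un T i o then D.w o * h o else 0) := by
    rw [Pr_resample D.w_sum _ i]
    refine Finset.sum_congr rfl fun o _ => ?_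
    by_cases ho : D.un T i o
    · simp only [ho, if_true]
      congr 1
      simp only [hh]
      congr 1
      ext ρ
      simp only [List.mem_cons, forall_eq_or_imp, update_self, ho, true_and, hunl]
    · simp only [ho, if_false]
      rw [Pr_false, mul_zero]
      intro ρ hρ
      have := hρ.2 i (by simp)
      simp at this
      exact ho this
  -- left hand side
  have hL : Pr D.w (fun ρ => E ρ ∧ (∀ j ∈ i :: l, D.un T j (ρ j)) ∧ D.st T i (ρ i) ∧
      ∃ a, D.G T l v (update (eff τ ρ) i (D.ans (eff τ ρ i) a)))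
      ≤ ∑ o, (if D.un T i o ∧ D.st T i o then D.w o * (2 * ((1 + δ) ^ l.length * C ^ v *
          h (D.φ T i o))) else 0) := by
    rw [Pr_resample D.w_sum _ i]
    refine Finset.sum_le_sum fun o _ => ?_
    by_cases ho : D.un T i o ∧ D.st T i o
    · simp only [ho, and_self, if_true]
      refine mul_le_mul_of_nonneg_left ?_ (hw o)
      -- closedness of E_o
      have hclosed : ∀ a, D.Closed (update τ i (some (D.ans o a)))
          (fun ρ => E (update ρ i o)) := by
        intro a ρ j o' hj hR' hEj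
        have hji : j ≠ i := by
          intro hji; subst hji; simp at hj
        have hτj : τ j = none := by simpa [update_of_ne hji] using hj
        show E (update (update ρ j o') i o)
        rw [update_comm hji]
        exact hE (update ρ i o) j o' hτj (by simpa [update_of_ne hji] using hR') hEj
      have hdead' : ∀ a, D.DeadFix (update τ i (some (D.ans o a))) := by
        intro a j o' hj
        by_cases hji : j = i
        · subst hji
          simp at hj
          rw [← hj]
          exact D.ans_dead o a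
        · rw [update_of_ne hji] at hj
          exact hdead j o' hj
      have hfree' : ∀ a, ∀ j ∈ l, update τ i (some (D.ans o a)) j = none := by
        intro a j hj
        have : j ≠ i := fun h => hil (h ▸ hj)
        rw [update_of_ne this]
        exact hfl j hj
      have hone : ∀ a, Pr D.w (fun ρ => E (update ρ i o) ∧ (∀ j ∈ l, D.un T j (ρ j)) ∧
          D.G T l v (eff (update τ i (some (D.ans o a))) ρ))
          ≤ (1 + δ) ^ l.length * C ^ v * h (D.φ T i o) := by
        intro a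
        refine (hB1 T hT l _ _ hln (hfree' a) (hdead' a) (hclosed a)).trans ?_
        refine mul_le_mul_of_nonneg_left ?_ (by positivity)
        simp only [hh]
        refine Pr_mono hw fun ρ hρ => ⟨?_, hρ.2⟩
        have := hE (update ρ i o) i (D.φ T i o) hτi
          (by simpa using D.R_φ T hT i o ho.1 ho.2) hρ.1
        simpa using this
      calc Pr D.w (fun ρ => E (update ρ i o) ∧ (∀ j ∈ i :: l, D.un T j (update ρ i o j)) ∧
            D.st T i (update ρ i o i) ∧
            ∃ a, D.G T l v (update (eff τ (update ρ i o)) i (D.ans (eff τ (update ρ i o) i) a)))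
          ≤ Pr D.w (fun ρ => (E (update ρ i o) ∧ (∀ j ∈ l, D.un T j (ρ j)) ∧
              D.G T l v (eff (update τ i (some (D.ans o true))) ρ)) ∨
              (E (update ρ i o) ∧ (∀ j ∈ l, D.un T j (ρ j)) ∧
              D.G T l v (eff (update τ i (some (D.ans o false))) ρ))) := by
            refine Pr_mono hw fun ρ hρ => ?_
            obtain ⟨h1, h2, h3, a, h4⟩ := hρ
            rw [eff_free hτi, update_self, eff_update] at h4
            have h5 : ∀ j ∈ l, D.un T j (ρ j) := by
              rw [← hunl ρ o]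
              intro j hj
              exact h2 j (by simp [hj])
            cases a with
            | false => exact Or.inr ⟨h1, h5, h4⟩
            | true => exact Or.inl ⟨h1, h5, h4⟩
        _ ≤ _ := (Pr_or hw _ _).trans (by linarith [hone true, hone false])
    · simp only [ho, if_false]
      rw [Pr_false, mul_zero]
      intro ρ hρ
      apply ho
      have h1 := hρ.2.1 i (by simp)
      have h2 := hρ.2.2.1
      simp only [update_self] at h1 h2
      exact ⟨h1, h2⟩
  refine hL.trans ?_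
  have h2 : ∑ o, (if D.un T i o ∧ D.st T i o then D.w o * (2 * ((1 + δ) ^ l.length * C ^ v *
          h (D.φ T i o))) else 0)
      = 2 * ((1 + δ) ^ l.length * C ^ v) *
        ∑ o, (if D.un T i o ∧ D.st T i o then D.w o * h (D.φ T i o) else 0) := by
    rw [Finset.mul_sum]
    refine Finset.sum_congr rfl fun o _ => ?_
    split_ifs
    · ring
    · ring
  rw [h2, hR]
  have h3 := D.w_φ T hT i h hh0
  have h4 : 0 ≤ ∑ o, (if D.un T i o then D.w o * h o else 0) := by
    refine Finset.sum_nonneg fun o _ => ?_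
    split_ifs
    · exact mul_nonneg (hw o) (hh0 o)
    · exact le_rfl
  have h5 : 0 ≤ (1 + δ) ^ l.length * C ^ v := by positivity
  calc 2 * ((1 + δ) ^ l.length * C ^ v) *
        ∑ o, (if D.un T i o ∧ D.st T i o then D.w o * h (D.φ T i o) else 0)
      ≤ 2 * ((1 + δ) ^ l.length * C ^ v) *
        (D.c * ∑ o, (if D.un T i o then D.w o * h o else 0)) := by
        refine mul_le_mul_of_nonneg_left ?_ (by positivity)
        convert h3 using 1
    _ = ((1 + δ) ^ l.length * C ^ v) * (2 * D.c) *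
        ∑ o, (if D.un T i o then D.w o * h o else 0) := by ring
    _ ≤ ((1 + δ) ^ l.length * C ^ v) * (δ * C) *
        ∑ o, (if D.un T i o then D.w o * h o else 0) := by
        refine mul_le_mul_of_nonneg_right ?_ h4
        exact mul_le_mul_of_nonneg_left hcC h5
    _ = _ := by ring

theorem SB1_of (C δ : ℝ) (hδ : 0 ≤ δ) (hC : 0 ≤ C) (hcC : 2 * D.c ≤ δ * C) (u : ℕ)
    (hA : D.SA C u) (hB : ∀ v, u = v + 1 → D.SB1 C δ v) : D.SB1 C δ u := by
  classical
  have hw := D.w_nonneg
  intro T hT l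
  induction l with
  | nil =>
    intro τ E _ _ hd hE
    simpa [G] using hA τ E hd hE
  | cons i l ih =>
    intro τ E hnd hfree hd hE
    have hτi : τ i = none := hfree i (by simp)
    have hP0 : 0 ≤ Pr D.w (fun ρ => E ρ ∧ ∀ j ∈ i :: l, D.un T j (ρ j)) := Pr_nonneg hw _
    cases u with
    | zero =>
      calc Pr D.w (fun ρ => E ρ ∧ (∀ j ∈ i :: l, D.un T j (ρ j)) ∧ D.G T (i :: l) 0 (eff τ ρ))
          ≤ Pr D.w (fun ρ => E ρ ∧ ∀ j ∈ i :: l, D.un T j (ρ j)) :=
            Pr_mono hw fun ρ h => ⟨h.1, h.2.1⟩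
        _ ≤ _ := by
          rw [pow_zero, mul_one]
          refine le_mul_of_one_le_left hP0 ?_
          exact one_le_pow₀ (by linarith)
    | succ v =>
      have h1 := D.step C δ hδ hC hcC v (hB v rfl) T hT i l τ E hnd hfree hd hE
      have h2 := ih τ (fun ρ => E ρ ∧ D.un T i (ρ i) ∧ ¬ D.st T i (ρ i))
        (List.nodup_cons.1 hnd).2 (fun j hj => hfree j (by simp [hj])) hd
        (hE.and_local D T hT i)
      calc Pr D.w (fun ρ => E ρ ∧ (∀ j ∈ i :: l, D.un T j (ρ j)) ∧
            D.G T (i :: l) (v + 1) (eff τ ρ))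
          ≤ Pr D.w (fun ρ => (E ρ ∧ (∀ j ∈ i :: l, D.un T j (ρ j)) ∧ D.st T i (ρ i) ∧
              ∃ a, D.G T l v (update (eff τ ρ) i (D.ans (eff τ ρ i) a))) ∨
              ((E ρ ∧ D.un T i (ρ i) ∧ ¬ D.st T i (ρ i)) ∧ (∀ j ∈ l, D.un T j (ρ j)) ∧
              D.G T l (v + 1) (eff τ ρ))) := by
            refine Pr_mono hw fun ρ hρ => ?_
            obtain ⟨g1, g2, g3⟩ := hρ
            rcases g3 with ⟨hst, g3⟩ | ⟨hst, g3⟩
            · left
              rw [eff_free hτi] at hst
              rcases g3 with g3 | ⟨v', hv', a, g3⟩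
              · omega
              · have hvv : v' = v := by omega
                rw [hvv] at g3
                exact ⟨g1, g2, hst, a, g3⟩
            · right
              rw [eff_free hτi] at hst
              exact ⟨⟨g1, g2 i (by simp), hst⟩, fun j hj => g2 j (by simp [hj]), g3⟩
        _ ≤ _ := Pr_or hw _ _
        _ ≤ δ * (1 + δ) ^ l.length * C ^ (v + 1) *
              Pr D.w (fun ρ => E ρ ∧ ∀ j ∈ i :: l, D.un T j (ρ j)) +
            (1 + δ) ^ l.length * C ^ (v + 1) *
              Pr D.w (fun ρ => E ρ ∧ ∀ j ∈ i :: l, D.un T j (ρ j)) := by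
            refine add_le_add h1 (h2.trans ?_)
            refine mul_le_mul_of_nonneg_left ?_ (by positivity)
            refine Pr_mono hw fun ρ hρ => ⟨hρ.1.1, ?_⟩
            intro j hj
            rcases List.mem_cons.1 hj with rfl | hj
            · exact hρ.1.2.1
            · exact hρ.2 j hj
        _ = _ := by
            rw [List.length_cons]; ring

theorem SB2_of (C δ : ℝ) (hδ : 0 ≤ δ) (hC : 0 ≤ C) (hcC : 2 * D.c ≤ δ * C) (v : ℕ)
    (hB : D.SB1 C δ v) : D.SB2 C δ (v + 1) := by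
  classical
  have hw := D.w_nonneg
  intro T hT l
  induction l with
  | nil =>
    intro τ E _ _ hd hE
    rw [Pr_false]
    · simp
    · rintro ρ ⟨_, _, ⟨i, hi, _⟩, _⟩
      simp at hi
  | cons i l ih =>
    intro τ E hnd hfree hd hE
    have hτi : τ i = none := hfree i (by simp)
    have hP0 : 0 ≤ Pr D.w (fun ρ => E ρ ∧ ∀ j ∈ i :: l, D.un T j (ρ j)) := Pr_nonneg hw _
    have h1 := D.step C δ hδ hC hcC v hB T hT i l τ E hnd hfree hd hE
    have h2 := ih τ (fun ρ => E ρ ∧ D.un T i (ρ i) ∧ ¬ D.st T i (ρ i))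
      (List.nodup_cons.1 hnd).2 (fun j hj => hfree j (by simp [hj])) hd
      (hE.and_local D T hT i)
    have hp1 : 1 ≤ (1 + δ) ^ l.length := one_le_pow₀ (by linarith)
    calc Pr D.w (fun ρ => E ρ ∧ (∀ j ∈ i :: l, D.un T j (ρ j)) ∧
          (∃ j ∈ i :: l, D.st T j (ρ j)) ∧ D.G T (i :: l) (v + 1) (eff τ ρ))
        ≤ Pr D.w (fun ρ => (E ρ ∧ (∀ j ∈ i :: l, D.un T j (ρ j)) ∧ D.st T i (ρ i) ∧
            ∃ a, D.G T l v (update (eff τ ρ) i (D.ans (eff τ ρ i) a))) ∨
            ((E ρ ∧ D.un T i (ρ i) ∧ ¬ D.st T i (ρ i)) ∧ (∀ j ∈ l, D.un T j (ρ j)) ∧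
            (∃ j ∈ l, D.st T j (ρ j)) ∧ D.G T l (v + 1) (eff τ ρ))) := by
          refine Pr_mono hw fun ρ hρ => ?_
          obtain ⟨g1, g2, ⟨j, hj, hjst⟩, g3⟩ := hρ
          rcases g3 with ⟨hst, g3⟩ | ⟨hst, g3⟩
          · left
            rw [eff_free hτi] at hst
            rcases g3 with g3 | ⟨v', hv', a, g3⟩
            · omega
            · have hvv : v' = v := by omega
              rw [hvv] at g3
              exact ⟨g1, g2, hst, a, g3⟩
          · right
            rw [eff_free hτi] at hst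
            refine ⟨⟨g1, g2 i (by simp), hst⟩, fun j hj => g2 j (by simp [hj]), ?_, g3⟩
            rcases List.mem_cons.1 hj with rfl | hj
            · exact absurd hjst hst
            · exact ⟨j, hj, hjst⟩
      _ ≤ _ := Pr_or hw _ _
      _ ≤ δ * (1 + δ) ^ l.length * C ^ (v + 1) *
            Pr D.w (fun ρ => E ρ ∧ ∀ j ∈ i :: l, D.un T j (ρ j)) +
          ((1 + δ) ^ l.length - 1) * C ^ (v + 1) *
            Pr D.w (fun ρ => E ρ ∧ ∀ j ∈ i :: l, D.un T j (ρ j)) := by
          refine add_le_add h1 (h2.trans ?_)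
          refine mul_le_mul_of_nonneg_left ?_
            (mul_nonneg (by linarith) (by positivity))
          refine Pr_mono hw fun ρ hρ => ⟨hρ.1.1, ?_⟩
          intro j hj
          rcases List.mem_cons.1 hj with rfl | hj
          · exact hρ.1.2.1
          · exact hρ.2 j hj
      _ = _ := by
          rw [List.length_cons]; ring

theorem SA_of (C δ : ℝ) (hδ : 0 ≤ δ) (hC : 0 ≤ C) (hW : (1 + δ) ^ D.W ≤ 2) (v : ℕ)
    (hB : D.SB2 C δ (v + 1)) : D.SA C (v + 1) := by
  classical
  have hw := D.w_nonneg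
  -- induction over suffixes of the list of terms
  have key : ∀ L' : List 𝒯, (∀ T ∈ L', T ∈ D.L) →
      ∀ (τ : I → Option Ω) (E : (I → Ω) → Prop), D.DeadFix τ → D.Closed τ E →
      (∀ ρ, E ρ → ∀ T ∈ D.L, T ∉ L' → ∃ i, ¬ D.un T i (eff τ ρ i)) →
      Pr D.w (fun ρ => E ρ ∧ D.bad (v + 1) (eff τ ρ)) ≤ C ^ (v + 1) * Pr D.w E := by
    intro L'
    induction L' with
    | nil =>
      intro _ τ E hd hE hfals
      rw [Pr_false]
      · exact mul_nonneg (by positivity) (Pr_nonneg hw _)
      · rintro ρ ⟨h1, h2⟩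
        exact D.bad_fals v _ (fun T hT => hfals ρ h1 T hT (by simp)) h2
    | cons T L'' ih =>
      intro hsub τ E hd hE hfals
      have hT : T ∈ D.L := hsub T (by simp)
      have e1 := Pr_split (w := D.w) E (fun ρ => ∃ i, ¬ D.un T i (eff τ ρ i))
      -- first part
      have hcl1 : D.Closed τ (fun ρ => E ρ ∧ ∃ i, ¬ D.un T i (eff τ ρ i)) := by
        rintro ρ i o hi hR ⟨hEρ, j, hj⟩
        refine ⟨hE ρ i o hi hR hEρ, j, ?_⟩
        by_cases hji : j = i
        · subst hji
          rw [eff_free hi] at hj ⊢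
          rw [update_self]
          exact D.R_nun T hT j _ _ hj hR
        · have : eff τ (update ρ i o) j = eff τ ρ j := by
            simp [eff, update_of_ne hji]
          rw [this]; exact hj
      have h1 := ih (fun T' hT' => hsub T' (by simp [hT'])) τ
        (fun ρ => E ρ ∧ ∃ i, ¬ D.un T i (eff τ ρ i)) hd hcl1 (by
          rintro ρ ⟨hEρ, hi⟩ T' hT' hnot
          by_cases hTT : T' = T
          · subst hTT; exact hi
          · exact hfals ρ hEρ T' hT' (by simp [hTT, hnot]))
      -- second part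
      have h2 : Pr D.w (fun ρ => (E ρ ∧ ¬ ∃ i, ¬ D.un T i (eff τ ρ i)) ∧
          D.bad (v + 1) (eff τ ρ))
          ≤ C ^ (v + 1) * Pr D.w (fun ρ => E ρ ∧ ¬ ∃ i, ¬ D.un T i (eff τ ρ i)) := by
        by_cases hfix : ∀ i o, τ i = some o → D.un T i o
        · set l := (D.bl T).filter (fun i => decide (τ i = none)) with hl
          have hlen : l.length ≤ D.W :=
            (List.length_filter_le _ _).trans (D.bl_len T hT)
          have hlnd : l.Nodup := (D.bl_nodup T hT).filter _
          have hlfree : ∀ i ∈ l, τ i = none := by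
            intro i hi
            have := (List.mem_filter.1 hi).2
            simpa using this
          have hun : ∀ ρ, (¬ ∃ i, ¬ D.un T i (eff τ ρ i)) ↔ ∀ i ∈ l, D.un T i (ρ i) := by
            intro ρ
            push Not
            constructor
            · intro h i hi
              have := h i
              rwa [eff_free (hlfree i hi)] at this
            · intro h i
              by_cases hi : i ∈ D.bl T
              · rcases hτ : τ i with _ | o
                · rw [eff_free hτ]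
                  exact h i (List.mem_filter.2 ⟨hi, by simpa using hτ⟩)
                · have : eff τ ρ i = o := by simp [eff, hτ]
                  rw [this]
                  exact hfix i o hτ
              · exact D.un_out T hT i hi _
          have h3 := hB T hT l τ E hlnd hlfree hd hE
          calc Pr D.w (fun ρ => (E ρ ∧ ¬ ∃ i, ¬ D.un T i (eff τ ρ i)) ∧
                D.bad (v + 1) (eff τ ρ))
              ≤ Pr D.w (fun ρ => E ρ ∧ (∀ i ∈ l, D.un T i (ρ i)) ∧
                  (∃ i ∈ l, D.st T i (ρ i)) ∧ D.G T l (v + 1) (eff τ ρ)) := by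
                refine Pr_mono hw fun ρ hρ => ?_
                obtain ⟨⟨h1, h2⟩, h3⟩ := hρ
                refine ⟨h1, (hun ρ).1 h2, ?_, D.bad_G T hT l _ _ h3⟩
                by_contra hcon
                push Not at hcon h2
                refine D.bad_sat v (eff τ ρ) ⟨T, hT, fun i => ⟨h2 i, ?_⟩⟩ h3
                by_cases hi : i ∈ D.bl T
                · rcases hτ : τ i with _ | o
                  · rw [eff_free hτ]
                    exact hcon i (List.mem_filter.2 ⟨hi, by simpa using hτ⟩)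
                  · have : eff τ ρ i = o := by simp [eff, hτ]
                    rw [this]
                    intro hst
                    exact hd i o hτ (D.st_live T hT i o hst)
                · exact D.st_out T hT i hi _
            _ ≤ ((1 + δ) ^ l.length - 1) * C ^ (v + 1) *
                  Pr D.w (fun ρ => E ρ ∧ ∀ i ∈ l, D.un T i (ρ i)) := h3
            _ ≤ 1 * C ^ (v + 1) * Pr D.w (fun ρ => E ρ ∧ ∀ i ∈ l, D.un T i (ρ i)) := by
                refine mul_le_mul_of_nonneg_right ?_ (Pr_nonneg hw _)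
                refine mul_le_mul_of_nonneg_right ?_ (by positivity)
                have : (1 + δ) ^ l.length ≤ (1 + δ) ^ D.W :=
                  pow_le_pow_right₀ (by linarith) hlen
                linarith
            _ = _ := by
                rw [one_mul]
                congr 2
                ext ρ
                rw [hun ρ]
        · push Not at hfix
          obtain ⟨i, o, hio, hnu⟩ := hfix
          rw [Pr_false]
          · exact mul_nonneg (by positivity) (Pr_nonneg hw _)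
          · rintro ρ ⟨⟨_, h2⟩, _⟩
            apply h2
            refine ⟨i, ?_⟩
            have : eff τ ρ i = o := by simp [eff, hio]
            rw [this]; exact hnu
      calc Pr D.w (fun ρ => E ρ ∧ D.bad (v + 1) (eff τ ρ))
          ≤ Pr D.w (fun ρ => ((E ρ ∧ ∃ i, ¬ D.un T i (eff τ ρ i)) ∧ D.bad (v + 1) (eff τ ρ)) ∨
              ((E ρ ∧ ¬ ∃ i, ¬ D.un T i (eff τ ρ i)) ∧ D.bad (v + 1) (eff τ ρ))) := by
            refine Pr_mono hw fun ρ hρ => ?_
            by_cases h : ∃ i, ¬ D.un T i (eff τ ρ i)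
            · exact Or.inl ⟨⟨hρ.1, h⟩, hρ.2⟩
            · exact Or.inr ⟨⟨hρ.1, h⟩, hρ.2⟩
        _ ≤ _ := Pr_or hw _ _
        _ ≤ _ := add_le_add h1 h2
        _ = _ := by rw [e1]; ring
  intro τ E hd hE
  exact key D.L (fun _ h => h) τ E hd hE (fun ρ _ T hT hnot => absurd hT hnot)

/-- ABSTRACT SWITCHING LEMMA -/
theorem switching (C δ : ℝ) (hδ : 0 ≤ δ) (hC : 0 ≤ C) (hcC : 2 * D.c ≤ δ * C)
    (hW : (1 + δ) ^ D.W ≤ 2) (u : ℕ) : Pr D.w (fun ρ => D.bad u ρ) ≤ C ^ u := by
  have hw := D.w_nonneg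
  have main : ∀ u, D.SA C u ∧ D.SB1 C δ u := by
    intro u
    induction u with
    | zero =>
      have hA : D.SA C 0 := by
        intro τ E _ _
        rw [pow_zero, one_mul]
        exact Pr_mono hw fun ρ h => h.1
      exact ⟨hA, D.SB1_of C δ hδ hC hcC 0 hA (fun v hv => by omega)⟩
    | succ v ih =>
      have hB2 := D.SB2_of C δ hδ hC hcC v ih.2
      have hA := D.SA_of C δ hδ hC hW v hB2
      refine ⟨hA, D.SB1_of C δ hδ hC hcC (v + 1) hA ?_⟩
      intro v' hv'
      have : v' = v := by omega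
      subst this
      exact ih.2
  have h := (main u).1 (fun _ => none) (fun _ => True) (by intro i o h; simp at h)
    (by intro ρ i o _ _ _; trivial)
  rw [Pr_true D.w_sum, mul_one] at h
  refine le_trans (Pr_mono hw fun ρ hρ => ⟨trivial, ?_⟩) h
  have : eff (fun _ => none) ρ = ρ := by ext i; simp [eff]
  rw [this]
  exact hρ

end SwData

end Pool.Agent.AH
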